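import Pool.Agent.Y323.CH.Calc

/-!
# Infinitely many independent functions
-/

noncomputable section

namespace Pool.Agent.Y323.CH

/-- the product of the `(x_i - 1) x_i (x_i - 4)` times a power of the first coordinate -/
def gX (j : ℕ) : C(X, ℂ) := (∏ i, ((coord i - 1) * coord i * (coord i - 4))) * coord 0 ^ j

lemma gX_apply (j : ℕ) (x : X) : gX j x =
    (∏ i, ((((x i : ℝ) : ℂ) - 1) * ((x i : ℝ) : ℂ) * (((x i : ℝ) : ℂ) - 4))) *
      ((x 0 : ℝ) : ℂ) ^ j := by
  rw [gX, ContinuousMap.mul_apply, ContinuousMap.pow_apply, coord_apply, Fin.prod_univ_three,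
    Fin.prod_univ_three]
  rfl

lemma gX_zero (j : ℕ) (x : X) (h : ∃ i, (x i : ℝ) = 0 ∨ (x i : ℝ) = 1 ∨ (x i : ℝ) = 4) :
    gX j x = 0 := by
  obtain ⟨i, hi⟩ := h
  rw [gX_apply, Finset.prod_eq_zero (Finset.mem_univ i), zero_mul]
  rcases hi with hi | hi | hi <;> rw [hi] <;> norm_num

lemma gX_indep (n : ℕ) : LinearIndependent ℂ fun j : Fin n => gX j := by
  rw [Fintype.linearIndependent_iff]
  intro c hc
  let p : Polynomial ℂ := ∑ j : Fin n, Polynomial.C (c j) * Polynomial.X ^ (j : ℕ)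
  have hp : p = 0 := by
    refine Polynomial.eq_zero_of_infinite_isRoot p ?_
    have hinf : Set.Infinite ((fun t : ℝ => (t : ℂ)) '' Set.Ioo 2 3) :=
      (Set.Ioo_infinite (by norm_num)).image (Complex.ofReal_injective.injOn)
    refine hinf.mono ?_
    rintro _ ⟨t, ht, rfl⟩
    let x : X := fun _ => ⟨t, by constructor <;> linarith [ht.1, ht.2]⟩
    have h1 := congrArg (fun f : C(X, ℂ) => f x) hc
    simp only [ContinuousMap.sum_apply, ContinuousMap.smul_apply, ContinuousMap.zero_apply] at h1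
    have h2 : ∀ j : Fin n, c j • gX j x =
        (((t : ℂ) - 1) * (t : ℂ) * ((t : ℂ) - 4)) ^ 3 * (c j * (t : ℂ) ^ (j : ℕ)) := by
      intro j
      rw [gX_apply, Fin.prod_univ_three, smul_eq_mul]
      show c j * (((t : ℂ) - 1) * (t : ℂ) * ((t : ℂ) - 4) * (((t : ℂ) - 1) * (t : ℂ) * ((t : ℂ) - 4)) *
        (((t : ℂ) - 1) * (t : ℂ) * ((t : ℂ) - 4)) * (t : ℂ) ^ (j : ℕ)) = _
      ring
    simp only [h2, ← Finset.mul_sum] at h1
    have h3 : (((t : ℂ) - 1) * (t : ℂ) * ((t : ℂ) - 4)) ^ 3 ≠ 0 := by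
      have h4 : ((t - 1) * t * (t - 4) : ℝ) ≠ 0 := by
        have := ht.1
        have := ht.2
        refine mul_ne_zero (mul_ne_zero ?_ ?_) ?_ <;> intro h <;> linarith
      refine pow_ne_zero _ ?_
      exact_mod_cast h4
    have h5 := (mul_eq_zero.1 h1).resolve_left h3
    show p.IsRoot (t : ℂ)
    rw [Polynomial.IsRoot.def, Polynomial.eval_finsetSum]
    simpa using h5
  intro j
  have h6 := congrArg (fun q : Polynomial ℂ => q.coeff (j : ℕ)) hp
  simp only [p, Polynomial.finsetSum_coeff, Polynomial.coeff_C_mul, Polynomial.coeff_X_pow,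
    Polynomial.coeff_zero] at h6
  rw [Finset.sum_eq_single j] at h6
  · simpa using h6
  · intro i _ hi
    rw [if_neg, mul_zero]
    intro h
    exact hi (Fin.ext h.symm)
  · simp

lemma theta_indep {D : Type} [CStarAlgebra D] (Θ : C(X, ℂ) →⋆ₐ[ℂ] D) (h : ∀ g, ‖Θ g‖ = ‖g‖)
    (n : ℕ) : LinearIndependent ℂ fun j : Fin n => Θ (gX j) := by
  have hinj : Function.Injective Θ := (AddMonoidHomClass.isometry_of_norm Θ h).injective
  exact (gX_indep n).map' Θ.toAlgHom.toLinearMap (LinearMap.ker_eq_bot.2 hinj)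

end Pool.Agent.Y323.CH
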