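import Pool.Agent.W444.QG.Defs

/-!
# Definitions for the statement
-/

noncomputable section

namespace Pool.Agent.Y323.CH

open Pool.Agent.W444.QG

/-- the cube `[0,4]³` -/
abbrev Cube : Type := Fin 3 → Set.Icc (0 : ℝ) 4

/-- the point has a coordinate in `{0, 1, 4}` -/
def OnWall (x : Cube) : Prop := ∃ i, (x i : ℝ) = 0 ∨ (x i : ℝ) = 1 ∨ (x i : ℝ) = 4

variable {N : ℕ}

/-- the unital `*`-homomorphisms from `C([0,4]³)` to `C(G)` -/
abbrev CubeHom (G : ClosedSubgroup N) : Type := C(Cube, ℂ) →⋆ₐ[ℂ] G.C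

/-- the value of a homomorphism at a function -/
def CubeHom.app {G : ClosedSubgroup N} (Θ : CubeHom G) (g : C(Cube, ℂ)) : G.C := Θ g

/-- the homomorphism is isometric and its range is the central algebra -/
def CubeHom.IsIsoOntoCentral {G : ClosedSubgroup N} (Θ : CubeHom G) : Prop :=
  (∀ g, ‖Θ.app g‖ = ‖g‖) ∧ Set.range Θ.app = G.central

/-- `c` is killed by the quotient maps `π_Q` for all `Q ∈ U_N` -/
def IsInvisible (G : ClosedSubgroup N) (c : G.C) : Prop :=
  ∀ Q ∈ Matrix.unitaryGroup (Fin N) ℂ, G.toTorus Q c = 0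

end Pool.Agent.Y323.CH
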