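import Pool.Agent.W444.CC.Quat

/-!
# Conjugate quaternions
-/


noncomputable section

namespace Pool.Agent.Y323.CH

open Quaternion Matrix
open Pool.Agent.W444.CC

lemma quat_conj_aux (p q x : ℍ[ℝ]) (hp : star p * p = 1) (hq : star q * q = 1)
    (h : p.re = q.re) : p * (p * x - x * star q) = (p * x - x * star q) * q := by
  have h1 : star p = ((2 * p.re : ℝ) : ℍ[ℝ]) - p := Quaternion.star_eq_two_re_sub p
  have h2 : star q = ((2 * q.re : ℝ) : ℍ[ℝ]) - q := Quaternion.star_eq_two_re_sub q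
  rw [h] at h1
  set c : ℍ[ℝ] := ((2 * q.re : ℝ) : ℍ[ℝ]) with hc
  have hcc : ∀ z : ℍ[ℝ], c * z = z * c := fun z => Quaternion.coe_commutes _ z
  have h3 : p * p = c * p - 1 := by
    have h4 : (c - p) * p = 1 := by rw [← h1]; exact hp
    rw [← h4]; noncomm_ring
  have h5 : (c - q) * q = 1 := by rw [← h2]; exact hq
  have e1 : p * (p * x - x * star q) = p * x * q - x := by
    rw [h2]
    calc p * (p * x - x * (c - q)) = p * p * x - p * (x * c) + p * x * q := by noncomm_ring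
      _ = (c * p - 1) * x - p * (c * x) + p * x * q := by rw [h3, hcc x]
      _ = c * p * x - x - p * c * x + p * x * q := by noncomm_ring
      _ = _ := by rw [hcc p]; noncomm_ring
  have e2 : (p * x - x * star q) * q = p * x * q - x := by
    rw [h2]
    calc (p * x - x * (c - q)) * q = p * x * q - x * ((c - q) * q) := by noncomm_ring
      _ = _ := by rw [h5, mul_one]
  rw [e1, e2]

lemma quat_central (p : ℍ[ℝ]) (h : ∀ x : ℍ[ℝ], p * x = x * p) : star p = p := by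
  have h1 := h (e (1,0))
  have h2 := h (e (0,1))
  have a1 := congrArg (fun z : ℍ[ℝ] => z.imK) h1
  have a2 := congrArg (fun z : ℍ[ℝ] => z.imJ) h1
  have a3 := congrArg (fun z : ℍ[ℝ] => z.imK) h2
  simp [e_re, e_imI, e_imJ, e_imK] at a1 a2 a3
  have b1 : p.imI = 0 := by linarith
  have b2 : p.imJ = 0 := by linarith
  have b3 : p.imK = 0 := by linarith
  ext
  · simp
  · simp [b1]
  · simp [b2]
  · simp [b3]

lemma exists_conj (p q : S3) (h : (p : ℍ[ℝ]).re = (q : ℍ[ℝ]).re) : ∃ m : S3, p = m * q * m⁻¹ := by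
  by_cases hx : ∃ x : ℍ[ℝ], (p : ℍ[ℝ]) * x - x * star (q : ℍ[ℝ]) ≠ 0
  · obtain ⟨x, hx⟩ := hx
    set m0 : ℍ[ℝ] := (p : ℍ[ℝ]) * x - x * star (q : ℍ[ℝ]) with hm0
    have h1 : (p : ℍ[ℝ]) * m0 = m0 * q :=
      quat_conj_aux p q x p.star_mul_self q.star_mul_self h
    have hn : ‖m0‖ ≠ 0 := norm_ne_zero_iff.2 hx
    have h2 : ‖(‖m0‖⁻¹ : ℝ) • m0‖ = 1 := by
      rw [norm_smul, norm_inv, norm_norm, inv_mul_cancel₀ hn]
    let m : S3 := ⟨(‖m0‖⁻¹ : ℝ) • m0, mem_sphere_zero_iff_norm.2 h2⟩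
    refine ⟨m, ?_⟩
    rw [eq_mul_inv_iff_mul_eq]
    apply Subtype.ext
    show (p : ℍ[ℝ]) * ((‖m0‖⁻¹ : ℝ) • m0) = (‖m0‖⁻¹ : ℝ) • m0 * q
    rw [mul_smul_comm, smul_mul_assoc, h1]
  · push Not at hx
    have h1 : (p : ℍ[ℝ]) = star (q : ℍ[ℝ]) := by
      have := hx 1
      rw [mul_one, one_mul] at this
      exact sub_eq_zero.1 this
    have h2 : star (p : ℍ[ℝ]) = p := by
      apply quat_central
      intro x
      have := sub_eq_zero.1 (hx x)
      rw [this, h1]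
    refine ⟨1, ?_⟩
    rw [one_mul, inv_one, mul_one]
    apply Subtype.ext
    rw [← h2, h1, star_star]

end Pool.Agent.Y323.CH
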