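import Pool.Agent.Y323.CH.Surj
import Pool.Agent.Y323.CH.Conj

/-!
# Base points
-/

set_option synthInstance.maxSize 1024

noncomputable section

namespace Pool.Agent.Y323.CH

open Quaternion Matrix
open Pool.Agent.W444.QG Pool.Agent.W444.CC
open scoped Matrix.Norms.L2Operator

/-- the values depend on the rotations only -/
lemma evC_congr (k k' : K) (h : ∀ i a b, r (k i) a b = r (k' i) a b) (c : CG) :
    evC k c = evC k' c := by
  refine W444.CC.hom_ext (evC k) (evC k') (fun i a b => ?_) c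
  rw [evC_toC, evC_toC, gen_apply, gen_apply, h]

lemma r_neg (q : ℍ[ℝ]) (a b : Q4) : r (-q) a b = r q a b := by
  rw [r, r, star_neg, neg_mul, neg_mul_neg]

/-- the base quaternion -/
def qx (t : ℝ) : ℍ[ℝ] := (√t / 2) • e (0,0) + (√(4 - t) / 2) • e (1,0)

lemma qx_re (t : ℝ) : (qx t).re = √t / 2 := by
  simp [qx, e_re]

lemma norm_qx (t : ℝ) (h0 : 0 ≤ t) (h4 : t ≤ 4) : ‖qx t‖ = 1 := by
  have hx : √t * √t = t := Real.mul_self_sqrt h0
  have hy : √(4 - t) * √(4 - t) = 4 - t := Real.mul_self_sqrt (by linarith)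
  have h1 : ‖qx t‖ * ‖qx t‖ = 1 := by
    rw [← Quaternion.normSq_eq_norm_mul_self, Quaternion.normSq_def']
    simp [qx, e_re, e_imI, e_imJ, e_imK]
    nlinarith
  nlinarith [norm_nonneg (qx t)]

lemma continuous_qx : Continuous qx := by
  unfold qx
  fun_prop

/-- the base point -/
def kx (x : X) : K := fun i => ⟨qx (x i), mem_sphere_zero_iff_norm.2
  (norm_qx (x i) (x i).2.1 (x i).2.2)⟩

lemma continuous_kx : Continuous kx := by
  refine continuous_pi fun i => Continuous.subtype_mk ?_ _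
  exact continuous_qx.comp (continuous_subtype_val.comp (continuous_apply i))

lemma trace_S3 (q : S3) : ∑ a, r q a a = 4 * ((q : ℍ[ℝ]).re * (q : ℍ[ℝ]).re) := by
  rw [sum_Q4]
  exact trace_r q

/-- the point of the cube -/
def xk (k : K) : X := fun i => ⟨∑ a, r (k i) a a, by
  rw [trace_S3]
  have h1 : ‖((k i : S3) : ℍ[ℝ])‖ * ‖((k i : S3) : ℍ[ℝ])‖ = 1 := by rw [S3.norm_eq]; norm_num
  rw [← Quaternion.normSq_eq_norm_mul_self, Quaternion.normSq_def'] at h1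
  constructor
  · nlinarith [mul_self_nonneg ((k i : S3) : ℍ[ℝ]).re]
  · nlinarith [sq_nonneg ((k i : S3) : ℍ[ℝ]).imI, sq_nonneg ((k i : S3) : ℍ[ℝ]).imJ,
      sq_nonneg ((k i : S3) : ℍ[ℝ]).imK]⟩

lemma xk_apply (k : K) (i : Fin 3) : (xk k i : ℝ) = ∑ a, r (k i) a a := rfl

/-- the opposite of a unit quaternion -/
def nS (p : S3) : S3 := ⟨-(p : ℍ[ℝ]), mem_sphere_zero_iff_norm.2 (by rw [norm_neg, S3.norm_eq])⟩

lemma nS_coe (p : S3) : ((nS p : S3) : ℍ[ℝ]) = -(p : ℍ[ℝ]) := rfl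

lemma conj_one (p s : S3) (hs : (s : ℍ[ℝ]).re = |(p : ℍ[ℝ]).re|) :
    ∃ m q : S3, (∀ a b, r p a b = r q a b) ∧ q = m * s * m⁻¹ := by
  rcases le_total 0 (p : ℍ[ℝ]).re with h0 | h0
  · obtain ⟨m, hm⟩ := exists_conj p s (by rw [hs, abs_of_nonneg h0])
    exact ⟨m, p, fun _ _ => rfl, hm⟩
  · have h1 : ((nS p : S3) : ℍ[ℝ]).re = (s : ℍ[ℝ]).re := by
      rw [hs, abs_of_nonpos h0, nS_coe, Quaternion.re_neg]
    obtain ⟨m, hm⟩ := exists_conj (nS p) s h1
    refine ⟨m, nS p, fun a b => ?_, hm⟩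
    rw [nS_coe, r_neg]

lemma kx_coe (x : X) (i : Fin 3) : ((kx x i : S3) : ℍ[ℝ]) = qx (x i) := by exact rfl

lemma sqrt_four_mul (a : ℝ) : √(4 * (a * a)) / 2 = |a| := by
  have h2 : 4 * (a * a) = (2 * |a|) ^ 2 := by
    rw [mul_pow, sq_abs]; ring
  rw [h2, Real.sqrt_sq (by positivity)]
  ring

end Pool.Agent.Y323.CH
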