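import Pool.Agent.Y323.CH.Base

set_option synthInstance.maxSize 1024

noncomputable section

namespace Pool.Agent.Y323.CH

open Quaternion Matrix
open Pool.Agent.W444.QG Pool.Agent.W444.CC
open scoped Matrix.Norms.L2Operator

lemma kx_re (k : K) (i : Fin 3) : ((kx (xk k) i : S3) : ℍ[ℝ]).re = |((k i : S3) : ℍ[ℝ]).re| := by
  rw [kx_coe, qx_re, xk_apply, trace_S3, sqrt_four_mul]

/-- elements with the same traces have conjugate rotations -/
lemma exists_conj_kx (k : K) : ∃ m k' : K, (∀ i a b, r (k i) a b = r (k' i) a b) ∧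
    ∀ i, k' i = m i * kx (xk k) i * (m i)⁻¹ := by
  have h := fun i => conj_one (k i) (kx (xk k) i) (kx_re k i)
  choose m q h1 h2 using h
  exact ⟨m, q, h1, h2⟩

lemma val_congr (k k' : K) (h : ∀ i a b, r (k i) a b = r (k' i) a b) (c : CG) :
    val k c = val k' c := by
  rw [val, evC_congr k k' h c, val]

lemma val_class (c : CG) (hcl : ∀ k l, val (k * l) c = val (l * k) c) (k : K) :
    val k c = val (kx (xk k)) c := by
  obtain ⟨m, k', h3, h4⟩ := exists_conj_kx k
  have h6 : k' = m * (kx (xk k) * m⁻¹) := by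
    funext i
    rw [h4 i, mul_assoc]
    rfl
  rw [val_congr k k' h3, h6, hcl, inv_mul_cancel_right]

lemma val_sub (k : K) (c d : CG) : val k (c - d) = val k c - val k d := by
  rw [val, val, val, map_sub, Matrix.sub_mulVec, Pi.sub_apply]

end Pool.Agent.Y323.CH
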