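import Mathlib

/-!
# Joint continuous functional calculus of three commuting self-adjoint elements
-/

noncomputable section

namespace Pool.Agent.Y323.CH

open WeakDual

/-- the cube `[0,4]³` -/
abbrev X : Type := Fin 3 → Set.Icc (0 : ℝ) 4

/-- the coordinate functions -/
def coord (i : Fin 3) : C(X, ℂ) := ⟨fun x => ((x i : ℝ) : ℂ), by fun_prop⟩

lemma coord_apply (i : Fin 3) (x : X) : coord i x = ((x i : ℝ) : ℂ) := rfl

section
variable {D : Type} [CStarAlgebra D] (a : Fin 3 → D)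

/-- the closed subalgebra generated -/
def BS : StarSubalgebra ℂ D := (StarAlgebra.adjoin ℂ (Set.range a)).topologicalClosure

lemma isClosed_BS : IsClosed (BS a : Set D) :=
  (StarAlgebra.adjoin ℂ (Set.range a)).isClosed_topologicalClosure

lemma mem_BS (i : Fin 3) : a i ∈ BS a :=
  (StarAlgebra.adjoin ℂ (Set.range a)).le_topologicalClosure
    (StarAlgebra.subset_adjoin ℂ _ ⟨i, rfl⟩)

lemma comm_BS (hsa : ∀ i, IsSelfAdjoint (a i)) (hc : ∀ i j, a i * a j = a j * a i) :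
    ∀ x y : BS a, x * y = y * x := by
  have h1 : ∀ x y : StarAlgebra.adjoin ℂ (Set.range a), x * y = y * x := by
    have h2 := StarAlgebra.isMulCommutative_adjoin ℂ (s := Set.range a)
      (by rintro _ ⟨i, rfl⟩ _ ⟨j, rfl⟩; exact hc i j)
      (by rintro _ ⟨i, rfl⟩ _ ⟨j, rfl⟩; rw [(hsa j).star_eq]; exact hc i j)
    exact h2.is_comm.comm
  show ∀ x y : (StarAlgebra.adjoin ℂ (Set.range a)).topologicalClosure, x * y = y * x
  let _ := (StarAlgebra.adjoin ℂ (Set.range a)).commRingTopologicalClosure h1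
  intro x y
  exact mul_comm x y

theorem exists_calc (hsa : ∀ i, IsSelfAdjoint (a i)) (hc : ∀ i j, a i * a j = a j * a i)
    (hsp : ∀ i, ∀ φ : BS a →ₐ[ℂ] ℂ, ∃ t : ℝ, 0 ≤ t ∧ t ≤ 4 ∧ φ ⟨a i, mem_BS a i⟩ = (t : ℂ)) :
    ∃ Θ : C(X, ℂ) →⋆ₐ[ℂ] BS a, ∀ i, Θ (coord i) = ⟨a i, mem_BS a i⟩ := by
  have : IsClosed (BS a : Set D) := isClosed_BS a
  let inst1 : CStarAlgebra (BS a) := inferInstance
  let inst2 : CommCStarAlgebra (BS a) := { inst1 with mul_comm := comm_BS a hsa hc }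
  let ev : C(characterSpace ℂ (BS a), X) :=
    { toFun := fun φ i => ⟨(φ ⟨a i, mem_BS a i⟩).re, by
        obtain ⟨t, h0, h4, h⟩ := hsp i (CharacterSpace.toAlgHom φ)
        have h' : φ ⟨a i, mem_BS a i⟩ = (t : ℂ) := h
        rw [h', Complex.ofReal_re]
        exact ⟨h0, h4⟩⟩
      continuous_toFun := by
        refine continuous_pi fun i => Continuous.subtype_mk ?_ _
        exact Complex.continuous_re.comp
          ((WeakDual.eval_continuous (⟨a i, mem_BS a i⟩ : BS a)).comp continuous_subtype_val) }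
  refine ⟨((gelfandStarTransform (BS a)).symm : C(characterSpace ℂ (BS a), ℂ) →⋆ₐ[ℂ] BS a).comp
    (ContinuousMap.compStarAlgHom' ℂ ℂ ev), fun i => ?_⟩
  show (gelfandStarTransform (BS a)).symm ((coord i).comp ev) = _
  rw [StarAlgEquiv.symm_apply_eq]
  ext φ
  show ((((φ ⟨a i, mem_BS a i⟩).re : ℝ)) : ℂ) = φ ⟨a i, mem_BS a i⟩
  obtain ⟨t, h0, h4, h⟩ := hsp i (CharacterSpace.toAlgHom φ)
  have h' : φ ⟨a i, mem_BS a i⟩ = (t : ℂ) := h
  rw [h', Complex.ofReal_re]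

/-- characters of `C(X)` are evaluations -/
lemma character_eval (ψ : C(X, ℂ) →ₐ[ℂ] ℂ) (x : X) (h : ∀ i, ψ (coord i) = ((x i : ℝ) : ℂ))
    (g : C(X, ℂ)) : ψ g = g x := by
  let ψ' : characterSpace ℂ C(X, ℂ) := CharacterSpace.equivAlgHom.symm ψ
  obtain ⟨y, hy⟩ := (CharacterSpace.homeoEval X ℂ).surjective ψ'
  have h1 : ∀ g : C(X, ℂ), ψ g = g y := by
    intro g
    have h2 : ψ' g = (CharacterSpace.homeoEval X ℂ y) g := by rw [hy]
    exact h2
  have h3 : y = x := by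
    funext i
    apply Subtype.ext
    have h4 := (h1 (coord i)).symm.trans (h i)
    rw [coord_apply] at h4
    exact_mod_cast h4
  rw [h1, h3]

theorem norm_of_points (Θ : C(X, ℂ) →⋆ₐ[ℂ] BS a) (hΘ : ∀ i, Θ (coord i) = ⟨a i, mem_BS a i⟩)
    (hpt : ∀ x : X, ∃ φ : BS a →ₐ[ℂ] ℂ, ∀ i, φ ⟨a i, mem_BS a i⟩ = ((x i : ℝ) : ℂ)) (g : C(X, ℂ)) :
    ‖(Θ g : D)‖ = ‖g‖ := by
  have : IsClosed (BS a : Set D) := isClosed_BS a
  apply le_antisymm
  · exact NonUnitalStarAlgHom.norm_apply_le ((BS a).subtype.comp Θ) g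
  · rw [ContinuousMap.norm_le _ (norm_nonneg _)]
    intro x
    obtain ⟨φ, hφ⟩ := hpt x
    have h1 : (φ.comp (Θ : C(X, ℂ) →ₐ[ℂ] BS a)) g = g x := by
      apply character_eval
      intro i
      show φ (Θ (coord i)) = _
      rw [hΘ, hφ]
    rw [← h1]
    show ‖φ (Θ g)‖ ≤ ‖Θ g‖
    have : CompleteSpace (BS a) := (isClosed_BS a).completeSpace_coe
    have h2 : φ (Θ g) ∈ spectrum ℂ (Θ g) := AlgHom.apply_mem_spectrum φ _
    have h3 : Nontrivial (BS a) := (φ : BS a →+* ℂ).domain_nontrivial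
    have h4 : NormOneClass (BS a) := ⟨CStarRing.norm_one⟩
    exact spectrum.norm_le_norm_of_mem h2

/-- the joint functional calculus, isometric when every point is attained -/
theorem exists_calc_isometric (hsa : ∀ i, IsSelfAdjoint (a i))
    (hc : ∀ i j, a i * a j = a j * a i)
    (hsp : ∀ i, ∀ φ : BS a →ₐ[ℂ] ℂ, ∃ t : ℝ, 0 ≤ t ∧ t ≤ 4 ∧ φ ⟨a i, mem_BS a i⟩ = (t : ℂ))
    (hpt : ∀ x : X, ∃ φ : BS a →ₐ[ℂ] ℂ, ∀ i, φ ⟨a i, mem_BS a i⟩ = ((x i : ℝ) : ℂ)) :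
    ∃ Θ : C(X, ℂ) →⋆ₐ[ℂ] D, (∀ i, Θ (coord i) = a i) ∧ (∀ g, ‖Θ g‖ = ‖g‖) ∧
      ∃ hm : ∀ g, Θ g ∈ BS a, ∀ (φ : BS a →ₐ[ℂ] ℂ) (x : X),
        (∀ i, φ ⟨a i, mem_BS a i⟩ = ((x i : ℝ) : ℂ)) → ∀ g, φ ⟨Θ g, hm g⟩ = g x := by
  obtain ⟨Θ, hΘ⟩ := exists_calc a hsa hc hsp
  refine ⟨(BS a).subtype.comp Θ, fun i => ?_, fun g => ?_, fun g => (Θ g).2, fun φ x h g => ?_⟩
  · show ((Θ (coord i) : BS a) : D) = a i
    rw [hΘ]
  · exact norm_of_points a Θ hΘ hpt g
  · exact character_eval (φ.comp (Θ : C(X, ℂ) →ₐ[ℂ] BS a)) x (fun i => by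
      show φ (Θ (coord i)) = _
      rw [hΘ, h]) g

/-- the closed subalgebra generated is the closure of the subalgebra generated -/
lemma BS_subset_closure (hsa : ∀ i, IsSelfAdjoint (a i)) (S : Subalgebra ℂ D)
    (h : ∀ i, a i ∈ S) : (BS a : Set D) ⊆ closure (S : Set D) := by
  refine closure_mono ?_
  intro c hc
  have h3 : (StarAlgebra.adjoin ℂ (Set.range a)).toSubalgebra = Algebra.adjoin ℂ (Set.range a) := by
    rw [StarAlgebra.adjoin_toSubalgebra]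
    congr 1
    have h4 : star (Set.range a) = Set.range a := by
      ext z
      rw [Set.mem_star]
      constructor
      · rintro ⟨i, hi⟩
        exact ⟨i, by rw [← star_star z, ← hi, (hsa i).star_eq]⟩
      · rintro ⟨i, rfl⟩
        exact ⟨i, (hsa i).star_eq.symm⟩
    rw [h4, Set.union_self]
  have h5 : c ∈ Algebra.adjoin ℂ (Set.range a) := by
    rw [← h3]
    exact hc
  refine Algebra.adjoin_le ?_ h5
  rintro _ ⟨i, rfl⟩
  exact h i

/-- a character from a multiplicative functional -/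
lemma exists_alg (v : D → ℂ) (h1 : ∀ c, v (algebraMap ℂ D c) = c) (hadd : ∀ x y, v (x + y) = v x + v y)
    (hmul : ∀ x ∈ BS a, ∀ y ∈ BS a, v (x * y) = v x * v y) :
    ∃ φ : BS a →ₐ[ℂ] ℂ, ∀ x : BS a, φ x = v x := by
  refine ⟨⟨⟨⟨⟨fun x => v x, ?_⟩, ?_⟩, ?_, ?_⟩, ?_⟩, fun x => rfl⟩
  · have := h1 1
    rw [map_one] at this
    exact this
  · intro x y
    exact hmul x x.2 y y.2
  · have := h1 0
    rw [map_zero] at this
    exact this
  · intro x y
    exact hadd x y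
  · intro c
    exact h1 c

end

/-- functions vanishing at the zeros of `p` are in the closed ideal generated by `p` -/
lemma mem_closure_span (p g : C(X, ℂ)) (h : ∀ x, p x = 0 → g x = 0) :
    g ∈ closure {u : C(X, ℂ) | ∃ q, u = q * p} := by
  have h1 : g ∈ ContinuousMap.idealOfSet ℂ (ContinuousMap.setOfIdeal (Ideal.span {p})) := by
    rw [ContinuousMap.mem_idealOfSet]
    intro x hx
    apply h
    rw [Set.mem_compl_iff, ContinuousMap.notMem_setOfIdeal] at hx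
    exact hx (Ideal.subset_span rfl)
  rw [ContinuousMap.idealOfSet_ofIdeal_eq_closure] at h1
  have h2 : g ∈ closure ((Ideal.span {p} : Ideal C(X, ℂ)) : Set C(X, ℂ)) := h1
  refine closure_mono ?_ h2
  intro u hu
  obtain ⟨q, hq⟩ := Ideal.mem_span_singleton'.1 hu
  exact ⟨q, hq.symm⟩

end Pool.Agent.Y323.CH
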