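import Pool.Agent.Y323.CH.Pts

/-!
# The comultiplication evaluated at two points
-/

set_option synthInstance.maxSize 1024

noncomputable section

namespace Pool.Agent.Y323.CH

open Quaternion Matrix
open Pool.Agent.W444.QG Pool.Agent.W444.CC
open scoped Matrix.Norms.L2Operator Kronecker

/-- the values of the comultiplication -/
def RC (k l : K) : CG →⋆ₐ[ℂ] Matrix (W × W) (W × W) ℂ where
  toFun c := ∑ h, (evC (k * hat h * l) c) ⊗ₖ P h
  map_one' := by
    simp only [map_one]
    rw [kron_sum, sum_P, Matrix.one_kronecker_one]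
  map_mul' F F' := by
    rw [Finset.sum_mul_sum]
    refine Finset.sum_congr rfl fun h _ => ?_
    rw [Finset.sum_eq_single h]
    · rw [← Matrix.mul_kronecker_mul, P_mul, if_pos rfl, map_mul]
    · intro h' _ hh
      rw [← Matrix.mul_kronecker_mul, P_mul, if_neg (Ne.symm hh), Matrix.kronecker_zero]
    · simp
  map_zero' := by
    simp only [map_zero, Matrix.zero_kronecker, Finset.sum_const_zero]
  map_add' F F' := by
    rw [← Finset.sum_add_distrib]
    refine Finset.sum_congr rfl fun h _ => ?_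
    rw [← Matrix.add_kronecker, map_add]
  commutes' c := by
    have h1 : ∀ k', evC k' (algebraMap ℂ CG c) = c • (1 : Matrix W W ℂ) := fun k' => by
      rw [AlgHomClass.commutes, Algebra.algebraMap_eq_smul_one]
    simp only [h1, Matrix.smul_kronecker, ← Finset.smul_sum]
    rw [kron_sum, sum_P, Matrix.one_kronecker_one, Algebra.algebraMap_eq_smul_one]
  map_star' F := by
    rw [Matrix.star_eq_conjTranspose, Matrix.conjTranspose_sum]
    refine Finset.sum_congr rfl fun h _ => ?_
    rw [Matrix.conjTranspose_kronecker, P_conjTranspose, StarHomClass.map_star,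
      Matrix.star_eq_conjTranspose]

lemma RC_apply (k l : K) (c : CG) : RC k l c = ∑ h, (evC (k * hat h * l) c) ⊗ₖ P h := by
  exact rfl

lemma exists_pair (k l : K) : ∃ θ : QG.square.T →⋆ₐ[ℂ] Matrix (W × W) (W × W) ℂ,
    ∀ a b : CG, θ (QG.square.tmul a b) = (evC k a ⊗ₖ evC l b).submatrix legs legs := by
  obtain ⟨θ, ⟨h1, h2⟩, -⟩ := QG.square.lift (Matrix (W × W) (W × W) ℂ) (kL.comp (evC k))
    (kR.comp (evC l)) (fun a b => by
      show kL _ * kR _ = kR _ * kL _
      rw [kL_mul_kR, kR_mul_kL])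
  refine ⟨θ, fun a b => ?_⟩
  show θ (QG.square.left a * QG.square.right b) = _
  exact ((map_mul θ _ _).trans (congrArg₂ (· * ·) (h1 a) (h2 b))).trans (kL_mul_kR _ _)

lemma comul_eval (k l : K) (θ : QG.square.T →⋆ₐ[ℂ] Matrix (W × W) (W × W) ℂ)
    (hθ : ∀ a b : CG, θ (QG.square.tmul a b) = (evC k a ⊗ₖ evC l b).submatrix legs legs) (c : CG) :
    θ (QG.comul c) = RC k l c := by
  refine W444.CC.hom_ext (θ.comp QG.comul) (RC k l) (fun i a b => ?_) c
  show θ (QG.comul (toC (gen i a b))) = _
  rw [comul_gen, map_sum, RC_apply]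
  simp only [hθ, evC_toC]
  have h2 := congrFun (D2_gen i a b) (k, l)
  rw [D2_apply, map_sum, Finset.sum_apply] at h2
  simp only [J_tmul] at h2
  exact h2.symm

lemma P_coef (h : V) (u : W) : P h u 0 = if u.1 = u.2 then (1 / 64 : ℂ) * pv u.1 h else 0 := by
  rw [P, Matrix.smul_apply, Matrix.sum_apply]
  simp only [Matrix.smul_apply, T_apply_zero, smul_eq_mul]
  split_ifs with hu
  · rw [Finset.sum_eq_single u.1]
    · have h1 : u = (u.1, u.1) := Prod.ext rfl hu.symm
      rw [if_pos h1, mul_one]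
    · intro c _ hc
      rw [if_neg (fun h' => hc (congrArg Prod.fst h').symm), mul_zero]
    · simp
  · rw [Finset.sum_eq_zero, mul_zero]
    intro c _
    rw [if_neg, mul_zero]
    rintro rfl
    exact hu rfl

/-- coefficients of the comultiplication of the character of a corepresentation -/
lemma coef_eq {n : Type} [Fintype n] [DecidableEq n] {w : Matrix n n QG.C} (hw : QG.IsCorep w)
    (k l : K) (z1 z2 u1 u2 : V) :
    ∑ i, ∑ j, cC (z1, u1) (w i j) k * cC (u2, z2) (w j i) l =
      ∑ h, cC (z1, z2) w.trace (k * hat h * l) * (if u1 = u2 then (1 / 64 : ℂ) * pv u1 h else 0) := by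
  obtain ⟨θ, hθ⟩ := exists_pair k l
  have h1 := comul_eval k l θ hθ w.trace
  have h2 : QG.comul w.trace = ∑ i, ∑ j, QG.square.tmul (w i j) (w j i) := by
    rw [Matrix.trace, map_sum]
    exact Finset.sum_congr rfl fun i _ => hw.2.2 i i
  have h3 : θ (QG.comul w.trace) =
      ∑ i, ∑ j, (evC k (w i j) ⊗ₖ evC l (w j i)).submatrix legs legs := by
    rw [h2, map_sum]
    refine Finset.sum_congr rfl fun i _ => ?_
    rw [map_sum]
    exact Finset.sum_congr rfl fun j _ => hθ _ _
  rw [h3] at h1
  have h5 := h1.trans (RC_apply k l w.trace)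
  have h4 := congrFun (congrFun h5 ((z1, z2), (u1, u2))) ((0, 0), (0, 0))
  rw [Matrix.sum_apply, Matrix.sum_apply] at h4
  simp only [Matrix.sum_apply, Matrix.submatrix_apply, Matrix.kroneckerMap_apply, legs,
    Equiv.coe_fn_mk] at h4
  refine h4.trans ?_
  refine Finset.sum_congr rfl fun h _ => ?_
  congr 1
  exact P_coef h (u1, u2)

end Pool.Agent.Y323.CH
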