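import Pool.Agent.Y323.CH.Onto

/-!
# The elements of the central algebra killed by the diagonal quotients
-/

set_option synthInstance.maxSize 1024

noncomputable section

namespace Pool.Agent.Y323.CH

open Quaternion Matrix
open Pool.Agent.W444.QG Pool.Agent.W444.CC
open scoped Matrix.Norms.L2Operator

section unitary

variable {Q : Matrix I I ℂ} (hQ : Qᴴ * Q = 1) (hQ' : Q * Qᴴ = 1)

include hQ hQ'

/-- one of the three factors vanishes in every diagonal quotient -/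
theorem exists_piB : ∃ i, piB Q (PAi i) = 0 := by
  by_cases hax : ∀ i, ∃ a : Q4, a ≠ 0 ∧ Pi.single a 1 ∈ Inv (Ub Q i)
  · obtain ⟨a, ha0, ha⟩ := hax 0
    obtain ⟨b, hb0, hb⟩ := hax 1
    obtain ⟨c, hc0, hc⟩ := hax 2
    have ha1 : Ub Q 0 a a = 1 := by rw [(isBlock_Ub 0).axis_right ha, if_pos rfl]
    have hb1 : Ub Q 1 b b = 1 := by rw [(isBlock_Ub 1).axis_right hb, if_pos rfl]
    rcases key4 a b c ⟨ha0, hb0, hc0⟩ with h | h | h
    · refine ⟨1, ?_⟩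
      rw [piB_PAi]
      refine (isBlock_Ub 1).diag hb a h fun x y => ?_
      have := Ub_comm 0 1 a ha1 x y
      rwa [cr01, cr01] at this
    · refine ⟨2, ?_⟩
      rw [piB_PAi]
      refine (isBlock_Ub 2).diag hc b h fun x y => ?_
      have := Ub_comm 1 2 b hb1 x y
      rwa [cr12, cr12] at this
    · refine ⟨2, ?_⟩
      rw [piB_PAi]
      refine (isBlock_Ub 2).diag hc (phi a) h fun x y => ?_
      have := Ub_comm 0 2 a ha1 x y
      rwa [cr02, cr02] at this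
  · push Not at hax
    obtain ⟨i, hi⟩ := hax
    refine ⟨i, ?_⟩
    rw [piB_PAi]
    exact (isBlock_Ub i).noaxis (xinv hQ hQ' i) hi

end unitary

/-- One of the three factors vanishes in every spun diagonal quotient. -/
theorem exists_toTorus (Q : Matrix (Fin 12) (Fin 12) ℂ)
    (hQ : Q ∈ Matrix.unitaryGroup (Fin 12) ℂ) : ∃ i, QG.toTorus Q (toC (PAi i)) = 0 := by
  have hQ1 : Qᴴ * Q = 1 := (Matrix.mem_unitaryGroup_iff').1 hQ
  have hQ2 : Q * Qᴴ = 1 := (Matrix.mem_unitaryGroup_iff).1 hQ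
  obtain ⟨i, hP⟩ := exists_piB (Qre_left hQ1) (Qre_right hQ2)
  refine ⟨i, ?_⟩
  let ρ : A →+* QG.TorusQuot Q := (QG.toTorus Q).comp (toC : A →+* CG)
  have hρ : ∀ p q : I, p ≠ q → ρ (vA (Qre Q) p q) = 0 := by
    intro p q hpq
    have h1 : toC (vA (Qre Q) p q) = QG.conj Q (e12.symm p) (e12.symm q) := by
      rw [conj_eq]
      simp
    show QG.toTorus Q (toC (vA (Qre Q) p q)) = 0
    rw [h1]
    exact QG.toTorus_off (fun h => hpq (e12.symm.injective h))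
  have hρ' : ∀ ⦃a b : A⦄, torRel (Qre Q) a b → ρ a = ρ b := by
    rintro _ _ ⟨i, j, hij, rfl, rfl⟩
    rw [hρ i j hij, map_zero]
  have h4 : RingQuot.lift ⟨ρ, hρ'⟩ (piB (Qre Q) (PAi i)) = ρ (PAi i) := by
    have h5 : piB (Qre Q) (PAi i) = RingQuot.mkRingHom (torRel (Qre Q)) (PAi i) := by
      rw [← RingQuot.mkAlgHom_coe ℂ]; rfl
    rw [h5, RingQuot.lift_mkRingHom_apply]
  rw [hP, map_zero] at h4
  exact h4.symm

/-- the kernel of a diagonal quotient is closed -/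
lemma isClosed_ker {N : ℕ} (G : ClosedSubgroup N) (Q : Matrix (Fin N) (Fin N) ℂ) :
    IsClosed {c : G.C | G.toTorus Q c = 0} := by
  have h1 : {c : G.C | G.toTorus Q c = 0} = (G.torusIdeal Q : Set G.C) := by
    ext c
    constructor
    · intro h
      have h2 : ((G.torusIdeal Q).ringCon.mk' c) = (G.torusIdeal Q).ringCon.mk' 0 := by
        rw [map_zero]; exact h
      exact (RingCon.eq (G.torusIdeal Q).ringCon).1 h2
    · intro h
      have h3 : (G.torusIdeal Q).ringCon c 0 := h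
      exact (RingCon.eq (G.torusIdeal Q).ringCon).2 h3
  rw [h1]
  have h4 : (G.torusIdeal Q : Set G.C) = ⋂ I ∈ {I : TwoSidedIdeal G.C | IsClosed (I : Set G.C) ∧
      ∀ i j, i ≠ j → G.conj Q i j ∈ I}, (I : Set G.C) := by
    ext c
    simp only [Set.mem_iInter]
    show c ∈ G.torusIdeal Q ↔ _
    rw [ClosedSubgroup.torusIdeal, TwoSidedIdeal.mem_sInf]
    rfl
  rw [h4]
  exact isClosed_biInter fun I hI => hI.1

/-- the polynomial `(x_i - 1) x_i (x_i - 4)` -/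
def pX (i : Fin 3) : C(X, ℂ) := (coord i - 1) * coord i * (coord i - 4)

lemma pX_eq_zero {i : Fin 3} {x : X} (h : pX i x = 0) :
    (x i : ℝ) = 0 ∨ (x i : ℝ) = 1 ∨ (x i : ℝ) = 4 := by
  have h1 : (((x i : ℝ) : ℂ) - 1) * ((x i : ℝ) : ℂ) * (((x i : ℝ) : ℂ) - 4) = 0 := h
  have h2 : (((x i : ℝ) - 1) * (x i : ℝ) * ((x i : ℝ) - 4) : ℝ) = 0 := by
    exact_mod_cast h1
  rcases mul_eq_zero.1 h2 with h3 | h3
  · rcases mul_eq_zero.1 h3 with h4 | h4
    · exact Or.inr (Or.inl (by linarith))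
    · exact Or.inl h4
  · exact Or.inr (Or.inr (by linarith))

lemma theta_pX (Θ : C(X, ℂ) →⋆ₐ[ℂ] CG) (h : ∀ i, Θ (coord i) = fC i) (i : Fin 3) :
    Θ (pX i) = toC (PAi i) := by
  have h4 : toC (4 : A) = 4 := map_ofNat toC 4
  rw [pX, PAi, map_mul, map_mul, map_sub, map_sub, map_one, map_ofNat, h, map_mul, map_mul, map_sub,
    map_sub, toC_one, h4, fC]

/-- The functions vanishing wherever some coordinate is `0`, `1` or `4` are killed. -/
theorem theta_kill (Θ : C(X, ℂ) →⋆ₐ[ℂ] CG) (h : ∀ i, Θ (coord i) = fC i)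
    (hn : ∀ g, ‖Θ g‖ = ‖g‖) (Q : Matrix (Fin 12) (Fin 12) ℂ)
    (hQ : Q ∈ Matrix.unitaryGroup (Fin 12) ℂ) (g : C(X, ℂ))
    (hg : ∀ x : X, (∃ i, (x i : ℝ) = 0 ∨ (x i : ℝ) = 1 ∨ (x i : ℝ) = 4) → g x = 0) :
    QG.toTorus Q (Θ g) = 0 := by
  obtain ⟨i, hi⟩ := exists_toTorus Q hQ
  have hcont : Continuous Θ := (AddMonoidHomClass.isometry_of_norm Θ hn).continuous
  have h1 : g ∈ closure {u : C(X, ℂ) | ∃ q, u = q * pX i} :=
    mem_closure_span (pX i) g fun x hx => hg x ⟨i, pX_eq_zero hx⟩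
  have h2 : IsClosed {u : C(X, ℂ) | QG.toTorus Q (Θ u) = 0} :=
    (isClosed_ker QG Q).preimage hcont
  have h3 : {u : C(X, ℂ) | ∃ q, u = q * pX i} ⊆ {u : C(X, ℂ) | QG.toTorus Q (Θ u) = 0} := by
    rintro _ ⟨q, rfl⟩
    show QG.toTorus Q (Θ (q * pX i)) = 0
    have h4 : Θ (q * pX i) = Θ q * toC (PAi i) := by rw [map_mul, theta_pX Θ h]
    rw [h4]
    refine (map_mul (QG.toTorus Q) (Θ q) (toC (PAi i))).trans ?_
    exact (congrArg (fun z => QG.toTorus Q (Θ q) * z) hi).trans (mul_zero _)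
  exact closure_minimal h3 h2 h1

/-- the identification of the central algebra -/
theorem main : ∃ Θ : C(X, ℂ) →⋆ₐ[ℂ] CG, (∀ g, ‖Θ g‖ = ‖g‖) ∧
    Set.range Θ = (QG.central : Set QG.C) ∧
    ∀ g : C(X, ℂ), (∀ x : X, (∃ i, (x i : ℝ) = 0 ∨ (x i : ℝ) = 1 ∨ (x i : ℝ) = 4) → g x = 0) →
      ∀ Q ∈ Matrix.unitaryGroup (Fin 12) ℂ, QG.toTorus Q (Θ g) = 0 := by
  obtain ⟨Θ, h1, h2, h3, h4⟩ := exists_theta
  refine ⟨Θ, h2, ?_, fun g hg Q hQ => theta_kill Θ h1 h2 Q hQ g hg⟩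
  apply Set.Subset.antisymm
  · rintro _ ⟨g, rfl⟩
    exact BS_le_central _ (h3 g)
  · intro c hc
    exact central_subset Θ h2 h3 h4 c hc

end Pool.Agent.Y323.CH
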