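import Pool.Agent.Y323.CH.Base2

/-!
# The functional calculus is onto the central algebra
-/

set_option synthInstance.maxSize 1024

noncomputable section

namespace Pool.Agent.Y323.CH

open Quaternion Matrix
open Pool.Agent.W444.QG Pool.Agent.W444.CC
open scoped Matrix.Norms.L2Operator

lemma continuous_val' {c : CG} (hc : Diag c) : Continuous fun k : K => val k c := by
  have h1 : (fun k : K => val k c) = fun k => ∑ z : V, cC (z, z) c k := funext fun k => hc.val_eq k
  rw [h1]
  exact continuous_finsetSum _ fun z _ => continuous_cC (z, z) c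

set_option maxRecDepth 20000 in
lemma continuous_val_kx {c : CG} (hc : Diag c) : Continuous fun x : X => val (kx x) c := by
  have h1 : ∀ f : K → ℂ, Continuous f → Continuous fun x : X => f (kx x) :=
    fun f hf => hf.comp continuous_kx
  exact h1 (fun k => val k c) (continuous_val' hc)

lemma exists_cmap (f : X → ℂ) (hf : Continuous f) : ∃ g : C(X, ℂ), ∀ x, g x = f x :=
  ⟨⟨f, hf⟩, fun _ => rfl⟩

/-- diagonal class functions come from the functional calculus -/
theorem mem_range (Θ : C(X, ℂ) →⋆ₐ[ℂ] CG) (hm : ∀ g, Θ g ∈ BS fC)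
    (hv : ∀ (k : K) (x : X), (∀ i, ∑ a, r (k i) a a = x i) → ∀ g, val k (Θ g) = g x)
    (c : CG) (hc : Diag c) (hcl : ∀ k l, val (k * l) c = val (l * k) c) : ∃ g, Θ g = c := by
  obtain ⟨g, hg⟩ : ∃ g : C(X, ℂ), ∀ x, g x = val (kx x) c :=
    exists_cmap (fun x => val (kx x) c) (continuous_val_kx hc)
  refine ⟨g, ?_⟩
  rw [← sub_eq_zero]
  refine ((diag_BS (hm _)).sub hc).eq_zero fun k => ?_
  rw [val_sub, hv k (xk k) (fun i => (xk_apply k i).symm) g, hg, val_class c hcl k, sub_self]

/-- the functional calculus is onto the central algebra -/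
theorem central_subset (Θ : C(X, ℂ) →⋆ₐ[ℂ] CG) (hn : ∀ g, ‖Θ g‖ = ‖g‖) (hm : ∀ g, Θ g ∈ BS fC)
    (hv : ∀ (k : K) (x : X), (∀ i, ∑ a, r (k i) a a = x i) → ∀ g, val k (Θ g) = g x)
    (c : CG) (hc : c ∈ QG.central) : ∃ g, Θ g = c := by
  have hiso : Isometry Θ := AddMonoidHomClass.isometry_of_norm Θ hn
  have hcl : IsClosed (Set.range Θ) := hiso.isClosedEmbedding.isClosed_range
  have h1 : ∀ a ∈ QG.irreducibleCharacters, a ∈ Set.range Θ := by
    rintro _ ⟨n, w, hw, -, rfl⟩
    have hd : Diag w.trace := fun z1 z2 hz k => diag_trace hw z1 z2 hz k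
    refine mem_range Θ hm hv w.trace hd fun k l => ?_
    rw [hd.val_eq, hd.val_eq]
    exact class_trace hw k l
  have h2 : ∀ a ∈ Submodule.span ℂ QG.irreducibleCharacters, a ∈ Set.range Θ := by
    intro a ha
    induction ha using Submodule.span_induction with
    | mem a ha => exact h1 a ha
    | zero => exact ⟨0, map_zero Θ⟩
    | add a b _ _ iha ihb =>
      obtain ⟨f, hf⟩ := iha
      obtain ⟨g, hg⟩ := ihb
      exact ⟨f + g, by rw [map_add, hf, hg]; rfl⟩
    | smul z a _ iha =>
      obtain ⟨f, hf⟩ := iha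
      exact ⟨z • f, by rw [map_smul, hf]; rfl⟩
  exact closure_minimal h2 hcl hc

end Pool.Agent.Y323.CH
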