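import Pool.Agent.Y323.CH.Theta

/-!
# Points
-/

set_option synthInstance.maxSize 1024

noncomputable section

namespace Pool.Agent.Y323.CH

open Quaternion Matrix
open Pool.Agent.W444.QG Pool.Agent.W444.CC
open scoped Matrix.Norms.L2Operator

lemma trace_r (q : ℍ[ℝ]) :
    r q (0,0) (0,0) + r q (1,0) (1,0) + r q (0,1) (0,1) + r q (1,1) (1,1) = 4 * (q.re * q.re) := by
  simp [r, co, e_re, e_imI, e_imJ, e_imK]
  ring

lemma exists_S3 (t : ℝ) (h0 : 0 ≤ t) (h4 : t ≤ 4) : ∃ q : S3, ∑ a, r q a a = t := by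
  have hx : √t * √t = t := Real.mul_self_sqrt h0
  have hy : √(4 - t) * √(4 - t) = 4 - t := Real.mul_self_sqrt (by linarith)
  let q : ℍ[ℝ] := ⟨√t / 2, √(4 - t) / 2, 0, 0⟩
  have hq : ‖q‖ = 1 := by
    have h1 : ‖q‖ * ‖q‖ = 1 := by
      rw [← Quaternion.normSq_eq_norm_mul_self, Quaternion.normSq_def']
      show (√t / 2) ^ 2 + (√(4 - t) / 2) ^ 2 + 0 ^ 2 + 0 ^ 2 = 1
      nlinarith
    nlinarith [norm_nonneg q]
  refine ⟨⟨q, mem_sphere_zero_iff_norm.2 hq⟩, ?_⟩
  rw [sum_Q4]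
  refine (trace_r q).trans ?_
  show 4 * (√t / 2 * (√t / 2)) = t
  linarith

/-- the value on `xi` -/
def val (k : K) (c : CG) : ℂ := (evC k c *ᵥ xi) 0

lemma continuous_mulVec_entry (k : K) (p : W) : Continuous fun c : CG => (evC k c *ᵥ xi) p := by
  simp only [Matrix.mulVec, dotProduct]
  exact continuous_finsetSum _ fun q _ => (continuous_entry k p q).mul continuous_const

lemma fC_xi (i : Fin 3) (k : K) : evC k (fC i) *ᵥ xi = (((∑ a, r (k i) a a : ℝ)) : ℂ) • xi := by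
  rw [fC, evC_toC, fA, sum_apply', Matrix.sum_mulVec]
  simp only [gen_apply, Matrix.smul_mulVec, T_xi]
  rw [← Finset.sum_smul, Complex.ofReal_sum]

lemma adjoin_xi (k : K) (c : CG) (hc : c ∈ StarAlgebra.adjoin ℂ (Set.range fC)) :
    ∃ z : ℂ, evC k c *ᵥ xi = z • xi ∧ evC k (star c) *ᵥ xi = star z • xi := by
  induction hc using StarAlgebra.adjoin_induction with
  | mem x hx =>
    obtain ⟨i, rfl⟩ := hx
    refine ⟨_, fC_xi i k, ?_⟩
    rw [(fC_sa i).star_eq, fC_xi, RCLike.star_def, Complex.conj_ofReal]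
  | algebraMap c =>
    refine ⟨c, ?_, ?_⟩
    · rw [AlgHomClass.commutes, Algebra.algebraMap_eq_smul_one, Matrix.smul_mulVec,
        Matrix.one_mulVec]
    · rw [← algebraMap_star_comm, AlgHomClass.commutes, Algebra.algebraMap_eq_smul_one,
        Matrix.smul_mulVec, Matrix.one_mulVec]
  | add x y _ _ hx hy =>
    obtain ⟨z, h1, h2⟩ := hx
    obtain ⟨w, h3, h4⟩ := hy
    refine ⟨z + w, ?_, ?_⟩
    · rw [map_add, Matrix.add_mulVec, h1, h3, add_smul]
    · rw [star_add, map_add, Matrix.add_mulVec, h2, h4, star_add, add_smul]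
  | mul x y _ _ hx hy =>
    obtain ⟨z, h1, h2⟩ := hx
    obtain ⟨w, h3, h4⟩ := hy
    refine ⟨z * w, ?_, ?_⟩
    · rw [map_mul, ← Matrix.mulVec_mulVec, h3, Matrix.mulVec_smul, h1, smul_smul, mul_comm]
    · rw [star_mul, map_mul, ← Matrix.mulVec_mulVec, h2, Matrix.mulVec_smul, h4, smul_smul,
        star_mul, mul_comm]
  | star x _ hx =>
    obtain ⟨z, h1, h2⟩ := hx
    exact ⟨star z, h2, by rw [star_star, star_star, h1]⟩

lemma continuous_val (k : K) : Continuous (val k) := continuous_mulVec_entry k 0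

lemma BS_xi (k : K) (c : CG) (hc : c ∈ BS fC) : evC k c *ᵥ xi = val k c • xi := by
  have h1 : ∀ p, IsClosed {c : CG | (evC k c *ᵥ xi) p = val k c * xi p} := fun p =>
    isClosed_eq (continuous_mulVec_entry k p) ((continuous_val k).mul continuous_const)
  have h2 : ∀ p, (BS fC : Set CG) ⊆ {c : CG | (evC k c *ᵥ xi) p = val k c * xi p} := by
    intro p
    refine closure_minimal ?_ (h1 p)
    intro c hc
    obtain ⟨z, h3, -⟩ := adjoin_xi k c hc
    have h4 : val k c = z := by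
      rw [val, h3, Pi.smul_apply, xi_zero, smul_eq_mul, mul_one]
    show (evC k c *ᵥ xi) p = val k c * xi p
    rw [h4, h3, Pi.smul_apply, smul_eq_mul]
  funext p
  rw [Pi.smul_apply, smul_eq_mul]
  exact h2 p hc

lemma exists_chK (k : K) : ∃ φ : BS fC →ₐ[ℂ] ℂ, ∀ x : BS fC, φ x = val k x :=
  exists_alg fC (val k) (fun c => by
      rw [val, AlgHomClass.commutes, Algebra.algebraMap_eq_smul_one, Matrix.smul_mulVec,
        Matrix.one_mulVec, Pi.smul_apply, xi_zero, smul_eq_mul, mul_one])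
    (fun x y => by rw [val, map_add, Matrix.add_mulVec, Pi.add_apply, ← val, ← val])
    (fun x hx y hy => by
      rw [val, map_mul, ← Matrix.mulVec_mulVec, BS_xi k y hy, Matrix.mulVec_smul,
        BS_xi k x hx, smul_smul, Pi.smul_apply, xi_zero, smul_eq_mul, mul_one, mul_comm])

lemma val_fC (k : K) (i : Fin 3) : val k (fC i) = ((∑ a, r (k i) a a : ℝ) : ℂ) := by
  rw [val, fC_xi, Pi.smul_apply, xi_zero, smul_eq_mul, mul_one]

lemma exists_point' (x : X) : ∃ φ : BS fC →ₐ[ℂ] ℂ, ∀ i, φ ⟨fC i, mem_BS fC i⟩ = ((x i : ℝ) : ℂ) := by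
  choose k hk using fun i => exists_S3 (x i) (x i).2.1 (x i).2.2
  obtain ⟨φ, hφ⟩ := exists_chK k
  refine ⟨φ, fun i => ?_⟩
  rw [hφ]
  exact (val_fC k i).trans (congrArg _ (hk i))

/-- the joint functional calculus -/
theorem exists_theta : ∃ Θ : C(X, ℂ) →⋆ₐ[ℂ] CG, (∀ i, Θ (coord i) = fC i) ∧
    (∀ g, ‖Θ g‖ = ‖g‖) ∧ (∀ g, Θ g ∈ BS fC) ∧
    ∀ (k : K) (x : X), (∀ i, ∑ a, r (k i) a a = x i) → ∀ g, val k (Θ g) = g x := by
  obtain ⟨Θ, h1, h2, h3, h4⟩ := exists_calc_isometric fC fC_sa fC_comm char_fC exists_point'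
  refine ⟨Θ, h1, h2, h3, fun k x hx g => ?_⟩
  obtain ⟨φ, hφ⟩ := exists_chK k
  rw [← h4 φ x (fun i => ?_) g, hφ]
  rw [hφ]
  exact (val_fC k i).trans (congrArg _ (hx i))

/-- the functional calculus has values in the central algebra -/
lemma BS_le_central (c : CG) (hc : c ∈ BS fC) : c ∈ QG.central := by
  have h1 := BS_subset_closure (D := QG.C) fC fC_sa (Algebra.adjoin ℂ (QG.charMonoid : Set QG.C))
    toC_fA_mem
  have h2 : closure (Algebra.adjoin ℂ (QG.charMonoid : Set QG.C) : Set QG.C) ⊆ QG.central :=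
    closure_minimal QG.adjoin_le_central isClosed_closure
  exact h2 (h1 hc)

end Pool.Agent.Y323.CH
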