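import Pool.Agent.W444.CC.Tori

/-!
# A sum of squares
-/

set_option synthInstance.maxSize 1024

noncomputable section

namespace Pool.Agent.Y323.CH

open Quaternion Matrix
open Pool.Agent.W444.QG Pool.Agent.W444.CC

lemma sos_alg {R : Type*} [Ring R] (a11 a22 a33 a12 a21 a13 a31 a23 a32 : R)
    (m1 : a22 * a33 + a32 * a23 = a11) (m2 : a23 * a32 + a33 * a22 = a11)
    (m3 : a11 * a33 + a31 * a13 = a22) (m4 : a13 * a31 + a33 * a11 = a22)
    (m5 : a11 * a22 + a21 * a12 = a33) (m6 : a12 * a21 + a22 * a11 = a33)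
    (r1 : a11 * a11 + a12 * a12 + a13 * a13 = 1) (r2 : a21 * a21 + a22 * a22 + a23 * a23 = 1)
    (r3 : a31 * a31 + a32 * a32 + a33 * a33 = 1) :
    4 * (1 + a11 + a22 + a33) - (1 + a11 + a22 + a33) * (1 + a11 + a22 + a33) =
      (a23 + a32) * (a23 + a32) + (a13 + a31) * (a13 + a31) + (a12 + a21) * (a12 + a21) := by
  have h1 : (1 + a11 + a22 + a33) * (1 + a11 + a22 + a33) =
      1 + 2 * a11 + 2 * a22 + 2 * a33 + a11 * a11 + a22 * a22 + a33 * a33 +
      (a22 * a33 + a33 * a22) + (a11 * a33 + a33 * a11) + (a11 * a22 + a22 * a11) := by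
    noncomm_ring
  have h2 : (a23 + a32) * (a23 + a32) + (a13 + a31) * (a13 + a31) + (a12 + a21) * (a12 + a21) =
      a23 * a23 + a32 * a32 + a13 * a13 + a31 * a31 + a12 * a12 + a21 * a21 +
      (a23 * a32 + a32 * a23) + (a13 * a31 + a31 * a13) + (a12 * a21 + a21 * a12) := by
    noncomm_ring
  rw [h1, h2]
  have e1 := congrArg₂ (· + ·) m1 m2
  have e2 := congrArg₂ (· + ·) m3 m4
  have e3 := congrArg₂ (· + ·) m5 m6
  have e4 := congrArg₂ (· + ·) (congrArg₂ (· + ·) r1 r2) r3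
  have key : (4 * (1 + a11 + a22 + a33) - (1 + 2 * a11 + 2 * a22 + 2 * a33 + a11 * a11 + a22 * a22 +
      a33 * a33 + (a22 * a33 + a33 * a22) + (a11 * a33 + a33 * a11) + (a11 * a22 + a22 * a11))) -
      (a23 * a23 + a32 * a32 + a13 * a13 + a31 * a31 + a12 * a12 + a21 * a21 +
      (a23 * a32 + a32 * a23) + (a13 * a31 + a31 * a13) + (a12 * a21 + a21 * a12)) =
      ((a11 + a11) - (a22 * a33 + a32 * a23 + (a23 * a32 + a33 * a22))) +
      ((a22 + a22) - (a11 * a33 + a31 * a13 + (a13 * a31 + a33 * a11))) +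
      ((a33 + a33) - (a11 * a22 + a21 * a12 + (a12 * a21 + a22 * a11))) +
      ((1 + 1 + 1) - (a11 * a11 + a12 * a12 + a13 * a13 + (a21 * a21 + a22 * a22 + a23 * a23) +
        (a31 * a31 + a32 * a32 + a33 * a33))) := by
    noncomm_ring
  rw [e1, e2, e3, e4] at key
  rw [← sub_eq_zero, key]
  simp

/-- `4 f - f²` is a sum of squares -/
lemma sos (i : Fin 3) : 4 * fA i - fA i * fA i =
    (gen i (0,1) (1,1) + gen i (1,1) (0,1)) * (gen i (0,1) (1,1) + gen i (1,1) (0,1)) +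
    (gen i (1,0) (1,1) + gen i (1,1) (1,0)) * (gen i (1,0) (1,1) + gen i (1,1) (1,0)) +
    (gen i (1,0) (0,1) + gen i (0,1) (1,0)) * (gen i (1,0) (0,1) + gen i (0,1) (1,0)) := by
  have e1 : ((1,0) : Q4) + (0,1) = (1,1) := by decide
  have e2 : ((1,0) : Q4) + (1,1) = (0,1) := by decide
  have e3 : ((0,1) : Q4) + (1,1) = (1,0) := by decide
  have e4 : ((0,1) : Q4) + (1,0) = (1,1) := by decide
  have e5 : ((1,1) : Q4) + (1,0) = (0,1) := by decide
  have e6 : ((1,1) : Q4) + (0,1) = (1,0) := by decide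
  have e7 : ∀ a : Q4, a + (0,0) = a := by decide
  have e8 : ((1,0) : Q4) + (1,0) = (0,0) := by decide
  have e9 : ((0,1) : Q4) + (0,1) = (0,0) := by decide
  have e10 : ((1,1) : Q4) + (1,1) = (0,0) := by decide
  have z1 : ∀ a : Q4, gen i a (0,0) = if a = (0,0) then 1 else 0 := gen_zero_right i
  have z2 : ∀ a : Q4, gen i (0,0) a = if a = (0,0) then 1 else 0 := gen_zero_left i
  have n1 : ((1,0) : Q4) ≠ (0,0) := by decide
  have n2 : ((0,1) : Q4) ≠ (0,0) := by decide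
  have n3 : ((1,1) : Q4) ≠ (0,0) := by decide
  have m1 := gen_mul i (1,0) (0,1) (1,1)
  have m2 := gen_mul i (1,0) (1,1) (0,1)
  have m3 := gen_mul i (0,1) (1,0) (1,1)
  have m4 := gen_mul i (0,1) (1,1) (1,0)
  have m5 := gen_mul i (1,1) (1,0) (0,1)
  have m6 := gen_mul i (1,1) (0,1) (1,0)
  have r1 := gen_row i (1,0) (1,0)
  have r2 := gen_row i (0,1) (0,1)
  have r3 := gen_row i (1,1) (1,1)
  simp only [sum_Q4, star_gen, e1, e2, e3, e4, e5, e6, e7, e8, e9, e10, z1, z2, if_neg n1, if_neg n2,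
    if_neg n3, if_true, mul_zero, zero_mul, zero_add, add_zero] at m1 m2 m3 m4 m5 m6 r1 r2 r3
  have hf : fA i = 1 + gen i (1,0) (1,0) + gen i (0,1) (0,1) + gen i (1,1) (1,1) := by
    rw [fA, sum_Q4, z1, if_pos rfl]
  rw [hf]
  exact sos_alg _ _ _ _ _ _ _ _ _ m1 m2 m3 m4 m5 m6 r1 r2 r3

end Pool.Agent.Y323.CH
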