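import Pool.Agent.Y323.CH.Cop

/-!
# The central algebra
-/

set_option synthInstance.maxSize 1024

noncomputable section

namespace Pool.Agent.Y323.CH

open Quaternion Matrix
open Pool.Agent.W444.QG Pool.Agent.W444.CC
open scoped Matrix.Norms.L2Operator

/-- summation over the characters of `V` -/
lemma sum_coef (c : CG) (x : W) (k l : K) :
    ∑ u : V, ∑ h, cC x c (k * hat h * l) * ((1 / 64 : ℂ) * pv u h) = cC x c (k * l) := by
  rw [Finset.sum_comm]
  have h1 : ∀ h, ∑ u : V, cC x c (k * hat h * l) * ((1 / 64 : ℂ) * pv u h) =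
      if h = 0 then cC x c (k * l) else 0 := by
    intro h
    rw [← Finset.mul_sum, ← Finset.mul_sum, sum_pv']
    split_ifs with h0
    · rw [h0, hat_zero, mul_one]; ring
    · ring
  simp only [h1]
  rw [Finset.sum_ite_eq', if_pos (Finset.mem_univ _)]

section corep

variable {n : Type} [Fintype n] [DecidableEq n] {w : Matrix n n QG.C} (hw : QG.IsCorep w)

include hw

/-- the symmetry of the coefficients -/
lemma coef_symm (k l : K) (z1 z2 u1 u2 : V) :
    ∑ h, cC (z1, z2) w.trace (k * hat h * l) * (if u1 = u2 then (1 / 64 : ℂ) * pv u1 h else 0) =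
    ∑ h, cC (u2, u1) w.trace (l * hat h * k) * (if z2 = z1 then (1 / 64 : ℂ) * pv z2 h else 0) := by
  rw [← coef_eq hw, ← coef_eq hw, Finset.sum_comm]
  exact Finset.sum_congr rfl fun i _ => Finset.sum_congr rfl fun j _ => mul_comm _ _

/-- the character of a corepresentation is diagonal -/
lemma diag_trace (z1 z2 : V) (hz : z1 ≠ z2) (k : K) : cC (z1, z2) w.trace k = 0 := by
  have h1 := sum_coef w.trace (z1, z2) k 1
  rw [mul_one] at h1
  rw [← h1]
  refine Finset.sum_eq_zero fun u _ => ?_
  have h2 := coef_symm hw k 1 z1 z2 u u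
  simp only [if_true, if_neg hz.symm, mul_zero, Finset.sum_const_zero] at h2
  exact h2

/-- the character of a corepresentation is a class function -/
lemma class_trace (k l : K) :
    ∑ z : V, cC (z, z) w.trace (k * l) = ∑ z : V, cC (z, z) w.trace (l * k) := by
  have h1 : ∀ z, cC (z, z) w.trace (k * l) =
      ∑ u : V, ∑ h, cC (u, u) w.trace (l * hat h * k) * ((1 / 64 : ℂ) * pv z h) := by
    intro z
    refine (sum_coef w.trace (z, z) k l).symm.trans ?_
    refine Finset.sum_congr rfl fun u _ => ?_
    have h2 := coef_symm hw k l z z u u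
    simp only [if_true] at h2
    exact h2
  have h3 : ∀ u, cC (u, u) w.trace (l * k) =
      ∑ z : V, ∑ h, cC (u, u) w.trace (l * hat h * k) * ((1 / 64 : ℂ) * pv z h) :=
    fun u => (sum_coef w.trace (u, u) l k).symm
  simp only [h1, h3]
  rw [Finset.sum_comm]

end corep

/-- the elements with diagonal coefficients -/
def Diag (c : CG) : Prop := ∀ (z1 z2 : V), z1 ≠ z2 → ∀ k, cC (z1, z2) c k = 0

lemma Diag.evC_eq {c : CG} (hc : Diag c) (k : K) : evC k c = ∑ z : V, cC (z, z) c k • T (z, z) := by
  rw [evC_eq_sum, Fintype.sum_prod_type]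
  refine Finset.sum_congr rfl fun z _ => ?_
  rw [Finset.sum_eq_single z]
  · intro z' _ hz
    rw [hc z z' hz.symm, zero_smul]
  · simp

lemma Diag.val_eq {c : CG} (hc : Diag c) (k : K) : val k c = ∑ z : V, cC (z, z) c k := by
  rw [val, hc.evC_eq, Matrix.sum_mulVec, Finset.sum_apply]
  refine Finset.sum_congr rfl fun z _ => ?_
  rw [Matrix.smul_mulVec, T_xi, Pi.smul_apply, xi_zero, smul_eq_mul, mul_one]

lemma diag_of_evC {c : CG} (h : ∀ k, ∃ f : V → ℂ, evC k c = ∑ z : V, f z • T (z, z)) : Diag c := by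
  intro z1 z2 hz k
  obtain ⟨f, hf⟩ := h k
  rw [cC, hf, Matrix.sum_apply]
  refine Finset.sum_eq_zero fun z _ => ?_
  rw [Matrix.smul_apply, T_apply_zero, if_neg, smul_zero]
  intro h'
  exact hz ((congrArg Prod.fst h').trans (congrArg Prod.snd h').symm)

lemma Diag.mul {c d : CG} (hc : Diag c) (hd : Diag d) : Diag (c * d) := by
  refine diag_of_evC fun k => ?_
  refine ⟨fun z => ∑ p : V, cC (p, p) c k * cC (p + z, p + z) d k, ?_⟩
  rw [map_mul, hc.evC_eq, hd.evC_eq, Finset.sum_mul_sum]
  simp only [smul_mul_smul_comm, T_diag_mul, Finset.sum_smul]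
  rw [Finset.sum_comm (s := (Finset.univ : Finset V)) (t := (Finset.univ : Finset V))
    (f := fun z p => (cC (p, p) c k * cC (p + z, p + z) d k) • T (z, z))]
  refine Finset.sum_congr rfl fun p _ => ?_
  refine Finset.sum_equiv (Equiv.addLeft p) (by simp) fun z _ => ?_
  have h1 : p + (p + z) = z := by
    rw [← add_assoc, V.add_self, zero_add]
  simp only [Equiv.coe_addLeft, h1]

lemma Diag.add {c d : CG} (hc : Diag c) (hd : Diag d) : Diag (c + d) := by
  intro z1 z2 hz k
  have h1 := hc z1 z2 hz k
  have h2 := hd z1 z2 hz k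
  rw [cC] at h1 h2 ⊢
  rw [map_add, Matrix.add_apply, h1, h2, add_zero]

lemma Diag.sub {c d : CG} (hc : Diag c) (hd : Diag d) : Diag (c - d) := by
  intro z1 z2 hz k
  rw [cC_sub, hc z1 z2 hz k, hd z1 z2 hz k, sub_zero]

lemma diag_algebraMap (c : ℂ) : Diag (algebraMap ℂ CG c) := by
  refine diag_of_evC fun k => ⟨fun z => if z = 0 then c else 0, ?_⟩
  rw [AlgHomClass.commutes, Algebra.algebraMap_eq_smul_one]
  simp only [ite_smul, zero_smul]
  rw [Finset.sum_ite_eq', if_pos (Finset.mem_univ _)]
  have : T ((0 : V), (0 : V)) = 1 := T_zero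
  rw [this]

lemma diag_fC (i : Fin 3) : Diag (fC i) := by
  intro z1 z2 hz k
  rw [fC, cC_toC, fA, sum_apply', Matrix.sum_apply]
  refine Finset.sum_eq_zero fun a _ => ?_
  rw [gen_apply, Matrix.smul_apply, T_apply_zero, if_neg, smul_zero]
  intro h'
  exact hz ((congrArg Prod.fst h').trans (congrArg Prod.snd h').symm)

lemma isClosed_diag : IsClosed {c : CG | Diag c} := by
  have h1 : {c : CG | Diag c} = ⋂ z1 : V, ⋂ z2 : V, ⋂ _ : z1 ≠ z2, ⋂ k : K,
      {c : CG | cC (z1, z2) c k = 0} := by
    ext c
    simp only [Set.mem_iInter]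
    rfl
  rw [h1]
  exact isClosed_iInter fun z1 => isClosed_iInter fun z2 => isClosed_iInter fun _ =>
    isClosed_iInter fun k => isClosed_eq (continuous_entry k (z1, z2) 0) continuous_const

lemma diag_BS {c : CG} (hc : c ∈ BS fC) : Diag c := by
  let S : Subalgebra ℂ CG :=
    { carrier := {c | Diag c}
      mul_mem' := fun h1 h2 => Diag.mul h1 h2
      add_mem' := fun h1 h2 => Diag.add h1 h2
      algebraMap_mem' := diag_algebraMap }
  have h1 := BS_subset_closure fC fC_sa S diag_fC hc
  have h2 : closure (S : Set CG) = {c | Diag c} := isClosed_diag.closure_eq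
  rw [h2] at h1
  exact h1

/-- diagonal elements are determined by their values -/
lemma Diag.eq_zero {c : CG} (hc : Diag c) (h : ∀ k, val k c = 0) : c = 0 := by
  refine eq_zero_of_cC c fun x k => ?_
  by_cases hx : x.1 = x.2
  · obtain ⟨z, z'⟩ := x
    simp only at hx
    subst hx
    have h1 : ∀ g : V, ∑ z' : V, pv z' g * cC (z', z') c k = 0 := by
      intro g
      have h2 := h (hat g * k * hat 0)
      rw [hc.val_eq] at h2
      rw [← h2]
      refine Finset.sum_congr rfl fun z' _ => ?_
      have h3 := cC_hat (z', z') (g, 0) k c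
      rw [h3, pr_eq]
      simp only [pv_zero_right, mul_one]
    have h4 : ∑ g : V, pv z g * ∑ z' : V, pv z' g * cC (z', z') c k = 64 * cC (z, z) c k := by
      simp only [Finset.mul_sum]
      rw [Finset.sum_comm]
      have h5 : ∀ z' : V, ∑ g : V, pv z g * (pv z' g * cC (z', z') c k) =
          if z' = z then 64 * cC (z, z) c k else 0 := by
        intro z'
        have h6 : ∀ g, pv z g * (pv z' g * cC (z', z') c k) = pv (z + z') g * cC (z', z') c k := by
          intro g
          rw [pv_add_left]; ring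
        simp only [h6]
        rw [← Finset.sum_mul, sum_pv]
        by_cases hz : z' = z
        · rw [if_pos hz, hz, V.add_self, if_pos rfl]
        · rw [if_neg hz, if_neg, zero_mul]
          intro h7
          apply hz
          have h8 : z + (z + z') = z := by rw [h7, add_zero]
          rwa [← add_assoc, V.add_self, zero_add] at h8
      simp only [h5]
      rw [Finset.sum_ite_eq', if_pos (Finset.mem_univ _)]
    simp only [h1, mul_zero, Finset.sum_const_zero] at h4
    have h9 : (64 : ℂ) ≠ 0 := by norm_num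
    exact (mul_eq_zero.1 h4.symm).resolve_left h9
  · exact hc x.1 x.2 hx k

end Pool.Agent.Y323.CH
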