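import Pool.Agent.W444.CC.Final
import Pool.Agent.Y323.CH.Calc
import Pool.Agent.Y323.CH.Sos

/-!
# A copy of the continuous functions on a cube inside the central algebra
-/

set_option synthInstance.maxSize 1024

noncomputable section

namespace Pool.Agent.Y323.CH

open Quaternion Matrix
open Pool.Agent.W444.QG Pool.Agent.W444.CC
open scoped Matrix.Norms.L2Operator

/-- the characters of the three blocks -/
def fC (i : Fin 3) : CG := toC (fA i)

lemma fA_sa (i : Fin 3) : star (fA i) = fA i := by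
  rw [fA, star_sum]
  exact Finset.sum_congr rfl fun a _ => star_gen i a a

lemma fC_sa (i : Fin 3) : IsSelfAdjoint (fC i) := by
  rw [IsSelfAdjoint, fC, ← StarHomClass.map_star, fA_sa]

lemma fA_comm (i j : Fin 3) : fA i * fA j = fA j * fA i := by
  rw [fA, fA, Finset.sum_mul_sum, Finset.sum_mul_sum, Finset.sum_comm]
  refine Finset.sum_congr rfl fun a _ => Finset.sum_congr rfl fun b _ => ?_
  rw [gen_comm i j b b a a]
  have h1 : cr i j b a + cr i j b a = 0 := by
    generalize cr i j b a = t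
    revert t; decide
  rw [h1, sgn_zero, Int.cast_one, one_smul]

lemma fC_comm (i j : Fin 3) : fC i * fC j = fC j * fC i := by
  rw [fC, fC, ← map_mul, fA_comm, map_mul]

open scoped ComplexOrder in
lemma char_fC (i : Fin 3) (φ : BS fC →ₐ[ℂ] ℂ) :
    ∃ t : ℝ, 0 ≤ t ∧ t ≤ 4 ∧ φ ⟨fC i, mem_BS fC i⟩ = (t : ℂ) := by
  have hcl := isClosed_BS (fC)
  have : CompleteSpace (BS fC) := hcl.completeSpace_coe
  set F : BS fC := ⟨fC i, mem_BS fC i⟩ with hF
  have h1 : φ F ∈ spectrum ℂ F := AlgHom.apply_mem_spectrum φ F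
  rw [StarSubalgebra.spectrum_eq (hS := hcl)] at h1
  have h2 : φ F = ((φ F).re : ℂ) := (fC_sa i).mem_spectrum_eq_re h1
  set t := (φ F).re with ht
  let _ := CStarAlgebra.spectralOrder CG
  have _ := CStarAlgebra.spectralOrderedRing CG
  have h3 : (0 : CG) ≤ 4 * fC i - fC i * fC i := by
    have h4 : 4 * fC i - fC i * fC i = toC (4 * fA i - fA i * fA i) := by
      rw [map_sub, map_mul, map_mul, map_ofNat]; rfl
    rw [h4, sos, map_add, map_add]
    have h5 : ∀ b : A, star b = b → (0 : CG) ≤ toC (b * b) := by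
      intro b hb
      have h6 : toC (b * b) = star (toC b) * toC b := by
        rw [← StarHomClass.map_star, hb, map_mul]
      rw [h6]
      exact star_mul_self_nonneg _
    have h7 : ∀ a b : Q4, star (gen i a b + gen i b a) = gen i a b + gen i b a := by
      intro a b; rw [star_add, star_gen, star_gen]
    exact add_nonneg (add_nonneg (h5 _ (h7 _ _)) (h5 _ (h7 _ _))) (h5 _ (h7 _ _))
  have h8 : φ (4 * F - F * F) ∈ spectrum ℂ (4 * F - F * F) := AlgHom.apply_mem_spectrum φ _
  rw [StarSubalgebra.spectrum_eq (hS := hcl)] at h8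
  have h9 : (0 : ℂ) ≤ φ (4 * F - F * F) := spectrum_nonneg_of_nonneg h3 h8
  rw [map_sub, map_mul, map_mul, map_ofNat, h2] at h9
  have h10 : 0 ≤ 4 * t - t * t := by
    have h11 : ((4 * t - t * t : ℝ) : ℂ) = 4 * (t : ℂ) - t * t := by push_cast; ring
    rw [← h11] at h9
    exact_mod_cast h9
  refine ⟨t, ?_, ?_, h2⟩
  · nlinarith
  · nlinarith

end Pool.Agent.Y323.CH
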